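import Pool.Agent.H684R3.USS.Stmts

set_option autoImplicit false

/-!
# Task J of the USS project (helper684): no zeros at good `n`
-/

namespace Pool.Agent.H266R3.USS

open Polynomial Finset Pool.Agent.H692R2.USS Pool.Agent.H684R3.USS
open scoped Classical

/-- the powers of the shift -/
theorem E_pow_apply (v : ℕ → ℤ) (a n : ℕ) : ((E ℤ) ^ a) v n = v (n + a) := by
  induction a generalizing n with
  | zero => simp
  | succ a ih =>
    rw [pow_succ', Module.End.mul_apply]
    show ((E ℤ) ^ a) v (n + 1) = _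
    rw [ih]; congr 1; omega

/-- If `p` splits `X ^ T - 1` and `T < p` then `T ∣ p - 1`. -/
theorem dvd_of_split (k p T : ℕ) (hp : p.Prime) (hs : SplitAll k p) (hT : 1 ≤ T) (hk : T ≤ k)
    (hkp : k < p) : T ∣ p - 1 := by
  have : Fact p.Prime := ⟨hp⟩
  have hmon : ((X : ℤ[X]) ^ T - 1).Monic := monic_X_pow_sub_C (1 : ℤ) (by omega)
  have hdeg : ((X : ℤ[X]) ^ T - 1).natDegree = T := natDegree_X_pow_sub_C (n := T) (r := (1 : ℤ))
  have hco : ∀ i, |((X : ℤ[X]) ^ T - 1).coeff i| ≤ k := by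
    intro i
    rw [coeff_sub, coeff_X_pow, coeff_one]
    have hk1 : (1 : ℤ) ≤ k := by exact_mod_cast (by omega : 1 ≤ k)
    have hk0 : (0 : ℤ) ≤ k := by omega
    by_cases h1 : i = T <;> by_cases h2 : i = 0
    · omega
    · simp [h1, show T ≠ 0 by omega, hk1]
    · simp [h2, show ¬ (0 = T) by omega, hk1]
    · simp [h1, h2, hk0]
  have hsp := hs _ hmon (by omega) hco
  have hmap : ((X : ℤ[X]) ^ T - 1).map (Int.castRingHom (ZMod p)) = X ^ T - C 1 := by
    simp
  rw [hmap] at hsp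
  have hTne : (T : ZMod p) ≠ 0 := by
    intro h
    rw [ZMod.natCast_eq_zero_iff] at h
    have := Nat.le_of_dvd (by omega) h
    omega
  have hsep : (X ^ T - C (1 : ZMod p)).Separable :=
    separable_X_pow_sub_C (1 : ZMod p) hTne one_ne_zero
  have hcard : Multiset.card (X ^ T - C (1 : ZMod p)).roots = T := by
    rw [← hsp.natDegree_eq_card_roots, natDegree_X_pow_sub_C]
  have hnd : (X ^ T - C (1 : ZMod p)).roots.Nodup := nodup_roots hsep
  have hTpos : NeZero T := ⟨by omega⟩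
  have e := rootsOfUnityEquivNthRoots (ZMod p) T
  have hc1 : Nat.card (rootsOfUnity T (ZMod p)) = T := by
    rw [Nat.card_congr e]
    have : Nat.card {x // x ∈ nthRoots T (1 : ZMod p)} =
        (nthRoots T (1 : ZMod p)).toFinset.card := by
      rw [Nat.card_eq_fintype_card]
      exact Fintype.card_of_subtype _ fun x => Multiset.mem_toFinset
    rw [this]
    unfold nthRoots
    rw [Multiset.toFinset_card_of_nodup hnd, hcard]
  have hdvd := Subgroup.card_subgroup_dvd_card (rootsOfUnity T (ZMod p))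
  rw [hc1, Nat.card_eq_fintype_card, ZMod.card_units] at hdvd
  exact hdvd

/-- the differences along a progression -/
theorem diff_eq (g q w : ℤ[X]) (p0 T r : ℕ) (v : ℕ → ℤ) (hv : Ann g v)
    (h : X ^ T - 1 = g * q + C (p0 : ℤ) * w) (i : ℕ) :
    ∃ c : ℤ, ∑ a ∈ Finset.range (i + 1), (-1) ^ (i - a) * (i.choose a : ℤ) * v (r + T * a) =
      (p0 : ℤ) ^ i * c := by
  have h1 : aeval (E ℤ) ((X ^ T - 1 : ℤ[X]) ^ i) v = fun n =>
      ∑ a ∈ Finset.range (i + 1), (-1) ^ (i - a) * (i.choose a : ℤ) * v (n + T * a) := by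
    funext n
    have : (X ^ T - 1 : ℤ[X]) ^ i = ∑ a ∈ Finset.range (i + 1),
        C ((-1) ^ (i - a) * (i.choose a : ℤ)) * X ^ (T * a) := by
      rw [sub_eq_add_neg, add_pow]
      refine Finset.sum_congr rfl fun a _ => ?_
      rw [← pow_mul]
      simp only [C_mul, C_pow, C_neg, C_1]
      rw [show (C ((i.choose a : ℕ) : ℤ) : ℤ[X]) = ((i.choose a : ℕ) : ℤ[X]) by simp]
      ring
    rw [this, map_sum, LinearMap.sum_apply, Finset.sum_apply]
    refine Finset.sum_congr rfl fun a _ => ?_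
    rw [map_mul, aeval_C, map_pow, aeval_X, Module.End.mul_apply]
    rw [Module.algebraMap_end_apply, Pi.smul_apply, E_pow_apply, smul_eq_mul]
  have h2 : ∃ z : ℤ[X], (X ^ T - 1 : ℤ[X]) ^ i = z * g + C ((p0 : ℤ) ^ i) * w ^ i := by
    have : g ∣ (X ^ T - 1 : ℤ[X]) ^ i - (C (p0 : ℤ) * w) ^ i := by
      refine dvd_trans ?_ (sub_dvd_pow_sub_pow _ _ i)
      rw [h]; exact ⟨q, by ring⟩
    obtain ⟨z, hz⟩ := this
    refine ⟨z, ?_⟩
    rw [C_pow, ← mul_pow]
    linear_combination hz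
  obtain ⟨z, hz⟩ := h2
  refine ⟨aeval (E ℤ) (w ^ i) v r, ?_⟩
  have h3 := congrFun h1 r
  rw [← h3, hz, map_add, map_mul, map_mul, LinearMap.add_apply, Module.End.mul_apply]
  unfold Ann at hv
  rw [hv, map_zero, zero_add, aeval_C, Module.End.mul_apply, Module.algebraMap_end_apply,
    Pi.smul_apply, smul_eq_mul]

theorem taskJ : TaskJ := by
  intro hH hI u k i n hcert hgood hun
  obtain ⟨g, s, t, rr, m, D, p0, T, q, w, v, hbase, hD, hdec, hnz⟩ := hcert
  obtain ⟨hg, hgd, hgc, hst, hrr, hrk, hk, hm, hAnn, hv, hp0, hp3, hT, hTk, hX⟩ := hbase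
  obtain ⟨B, hB, hBp⟩ := hgood
  have hsum : ∑ j ∈ Finset.range m, (n : ℤ) ^ j * v j n = 0 := by
    rw [← hdec n, hun, mul_zero]
  have hzero : ∀ b ∈ B, ∀ j < m, v j b = 0 := by
    intro b hb
    obtain ⟨p, -, hp⟩ := hBp b hb
    exact hH g s t rr m k p n b v hg hgd hgc hst hrr hrk hk hm hAnn hv hp
      (by rw [hsum]; exact dvd_zero _)
  have hmod : ∀ b ∈ B, b % T = n % T := by
    intro b hb
    obtain ⟨p, -, hp⟩ := hBp b hb
    obtain ⟨hpp, hsp, hlog, hbn, -⟩ := hp
    have hkp : k < p := by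
      have h1 : k < 2 ^ k := Nat.lt_two_pow_self
      have h2 : 2 ^ (Nat.log 2 p) ≤ p := Nat.pow_log_le_self 2 hpp.ne_zero
      have h3 : k ≤ Nat.log 2 p := by
        have : k ≤ 4 * k * (k + 1) * (b + 1) := by nlinarith [Nat.zero_le (k * b), Nat.zero_le (k*k), Nat.zero_le (k * k * b)]
        omega
      have h4 : 2 ^ k ≤ 2 ^ (Nat.log 2 p) := Nat.pow_le_pow_right (by norm_num) h3
      omega
    have hTp := dvd_of_split k p T hpp hsp hT hTk hkp
    exact hbn.of_dvd hTp
  set r := n % T with hr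
  have hrT : r < T := Nat.mod_lt _ (by omega)
  obtain ⟨j, hj, l, hne, hlt⟩ := hnz r hrT
  have hrep : ∀ b ∈ B, b = r + T * (b / T) := by
    intro b hb
    have := Nat.mod_add_div b T
    rw [hmod b hb] at this
    omega
  have hinj : Set.InjOn (fun b => b / T) (B : Set ℕ) := by
    intro b hb b' hb' hbb
    have h1 := hrep b hb
    have h2 := hrep b' hb'
    simp only at hbb
    rw [h1, h2, hbb]
  have hcard : k ≤ (B.image (fun b => b / T)).card := by
    rw [Finset.card_image_of_injOn hinj]; exact hB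
  have hdiv := hI (fun a => v j (r + T * a)) p0 k hp0 hp3
    (fun i => diff_eq g q w p0 T r (v j) (hAnn j hj) hX i) (B.image (fun b => b / T)) hcard
    (by
      intro a ha
      obtain ⟨b, hb, rfl⟩ := Finset.mem_image.1 ha
      show v j (r + T * (b / T)) = 0
      rw [← hrep b hb]
      exact hzero b hb j hj) l
  have hle := Int.le_of_dvd (abs_pos.2 hne) ((dvd_abs _ _).2 hdiv)
  have h3 : (3 : ℤ) ^ (k / 2) ≤ (p0 : ℤ) ^ (k - k / 2) := by
    calc (3 : ℤ) ^ (k / 2) ≤ (p0 : ℤ) ^ (k / 2) :=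
          pow_le_pow_left₀ (by norm_num) (by exact_mod_cast hp3) _
      _ ≤ (p0 : ℤ) ^ (k - k / 2) :=
          pow_le_pow_right₀ (by exact_mod_cast (by omega : 1 ≤ p0)) (by omega)
  linarith

end Pool.Agent.H266R3.USS
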